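import Mathlib
import Pool.Agent.H240R3.WT.Final
import Pool.Agent.H240R3.WT.TaskC
import Pool.Agent.H240R3.WT.TL
import Pool.Agent.H115R3.WT.TaskA
import Pool.Agent.H614R3.WT.B
import Pool.Agent.H622R3.WT.E
set_option autoImplicit false

namespace Pool.Agent.Results.MP_ee7c95_co.NotAttained

open Filter Topology Pool.Agent.H240R3.WT

/-- There is a nonempty class `𝓗` of 2-coloured multigraphs, for which some weak type is
`𝓗`-free, and a `p ∈ [0,1]` such that `μ_p(𝓗)` exists (as a limit) and `λ_p(τ) < μ_p(𝓗)` for every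
weak type `τ` such that no member of `𝓗` is `τ`-colourable. -/
theorem result :
    ∃ 𝓗 : Set MG, 𝓗.Nonempty ∧ (∃ τ, TFree 𝓗 τ) ∧
      ∃ p : ℝ, 0 ≤ p ∧ p ≤ 1 ∧ ∃ μ : ℝ,
        Tendsto (fun n : ℕ => ex p 𝓗 n / (n.choose 2 : ℝ)) atTop (𝓝 μ) ∧
        ∀ τ : WType, TFree 𝓗 τ → lam p τ < μ :=
  final Pool.Agent.H115R3.WT.taskA Pool.Agent.H614R3.WT.taskB (taskL Pool.Agent.H614R3.WT.taskB) Pool.Agent.H622R3.WT.taskE taskC

end Pool.Agent.Results.MP_ee7c95_co.NotAttained
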